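import Pool.Agent.V113.Wn.Main

/-!
# MP_e7c909_al: residue fields may generate although the spectrum is not weakly noetherian

Let `R` be the ring of all sequences `(f_n)` of power series over `ℚ` with a common constant term
`c` and `f_n = c` for all large `n` (a bouquet of countably many discrete valuation rings glued at
their closed points).  It is local with maximal ideal `m`, the other primes being the kernels `p_n`
of the coordinates, and `m` is not the radical of a finitely generated ideal, so the closed point is
not weakly visible.  On the other hand `R` is in the localizing subcategory generated by the residue
fields: `κ(p_n) / (R / p_n)` is a union of a chain of finite extensions of `κ(m)`, so `R / p_n` is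
generated, and `m` is the direct sum of the ideals `t_n R ≅ R / p_n`.
-/

set_option autoImplicit false

namespace Pool.Agent.Results.MP_e7c909_al.BouquetRing

open CategoryTheory V113.Wn

/-- **The result.** There is a commutative ring `R` satisfying condition (∗) whose spectrum is not
weakly noetherian. -/
theorem result : ∃ (R : Type) (_ : CommRing R),
    (letI := HasDerivedCategory.standard (ModuleCat.{0} R); Star R) ∧
      ¬ WeaklyNoetherian (PrimeSpectrum R) :=
  ⟨A, inferInstance, letI := HasDerivedCategory.standard (ModuleCat.{0} A); star,
    not_weaklyNoetherian⟩

end Pool.Agent.Results.MP_e7c909_al.BouquetRing
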